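import Pool.Agent.Helper74.CO.Goals

/-!
# Project CO (MP_c5396e_co), packet CO-GJ-GLI
-/

set_option autoImplicit false

namespace Pool.Agent.Helper12.CO

open Finset Pool.Agent.Helper74.CO

theorem norm_chi' {F : Type} [Field F] [Fintype F] [DecidableEq F] (χ : MulChar F ℂ) (t : F)
    (ht : t ≠ 0) : ‖χ t‖ = 1 := by
  have h1 : (χ t) ^ (Fintype.card F - 1) = 1 := by
    rw [← map_pow, FiniteField.pow_card_sub_one_eq_one t ht, map_one]
  have h2 : Fintype.card F - 1 ≠ 0 := by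
    have := Fintype.one_lt_card (α := F)
    omega
  exact Complex.norm_eq_one_of_pow_eq_one h1 h2

theorem norm_chi_le {F : Type} [Field F] [Fintype F] [DecidableEq F] (χ : MulChar F ℂ) (t : F) :
    ‖χ t‖ ≤ 1 := by
  by_cases ht : t = 0
  · rw [ht, MulChar.map_zero, norm_zero]
    exact zero_le_one
  · rw [norm_chi' χ t ht]

/-- Jacobi sums of two characters which are not both trivial -/
theorem jac_sq {F : Type} [Field F] [Fintype F] [DecidableEq F] (hJ : JAC F)
    (χ₁ χ₂ : MulChar F ℂ) (h : χ₂ ≠ 1) :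
    ‖∑ x, χ₁ x * χ₂ (1 - x)‖ ^ 2 ≤ 4 * Fintype.card F := by
  have e : ∑ x, χ₁ x * χ₂ (1 - x) = χ₂ (-1) * ∑ x, χ₁ x * χ₂ (x - 1) := by
    rw [Finset.mul_sum]
    refine Finset.sum_congr rfl fun x _ => ?_
    have e1 : (1 : F) - x = (-1) * (x - 1) := by ring
    rw [e1, map_mul]
    ring
  rw [e, norm_mul, norm_chi' χ₂ (-1) (neg_ne_zero.2 one_ne_zero), one_mul]
  exact hJ χ₁ χ₂ 1 h one_ne_zero

theorem jac_sq' {F : Type} [Field F] [Fintype F] [DecidableEq F] (hJ : JAC F)
    (χ₁ χ₂ : MulChar F ℂ) (h : χ₁ ≠ 1 ∨ χ₂ ≠ 1) :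
    ‖∑ x, χ₁ x * χ₂ (1 - x)‖ ^ 2 ≤ 4 * Fintype.card F := by
  rcases h with h | h
  · have e : ∑ x, χ₁ x * χ₂ (1 - x) = ∑ x, χ₂ x * χ₁ (1 - x) := by
      rw [← Equiv.sum_comp (Equiv.subLeft (1 : F))]
      refine Finset.sum_congr rfl fun x _ => ?_
      have e1 : (Equiv.subLeft (1 : F)) x = 1 - x := rfl
      rw [e1, sub_sub_cancel, mul_comm]
    rw [e]
    exact jac_sq hJ χ₂ χ₁ h
  · exact jac_sq hJ χ₁ χ₂ h

theorem ex_add (s t : ℝ) : ex (s + t) = ex s * ex t := by
  unfold ex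
  rw [← Complex.exp_add]
  congr 1
  push_cast
  ring

/-- **GJ** -/
theorem t_GJ (hL : LIM)
    (hJ : ∀ (F : Type) [Field F] [Fintype F] [DecidableEq F], JAC F) (hC : CHM) : GJ := by
  intro K κ hκ
  obtain ⟨q₁, hq₁⟩ := hL κ hκ
  refine ⟨max (max q₁ 3) (K + 2), ?_⟩
  intro F _ _ _ α β e f hq hα hβ hef
  have hqa : q₁ ≤ Fintype.card F := le_trans (le_trans (le_max_left _ _) (le_max_left _ _)) hq
  have hqb : 3 ≤ Fintype.card F := le_trans (le_trans (le_max_right _ _) (le_max_left _ _)) hq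
  have hqc : K + 2 ≤ Fintype.card F := le_trans (le_max_right _ _) hq
  intro j k hj hk hjk
  by_cases he : e = 0
  · have hX : Xg e f = ∅ := by
      unfold Xg
      rw [Finset.filter_eq_empty_iff]
      intro x _ h
      apply h.2.2.2.2
      rw [hef, zero_mul, he]
    rw [hX]
    simp
  · obtain ⟨χ, hχ1, hχ2⟩ := hC F α hα hqb
    obtain ⟨ω, hω1, hω2⟩ := hC F β hβ hqb
    have hsum : ∑ x ∈ Xg e f, ex (j * ag α x + k * cg β x) =
        ∑ x ∈ Xg e f, (χ ^ j) x * (ω ^ k) (1 - x) := by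
      refine Finset.sum_congr rfl fun x hx => ?_
      unfold Xg at hx
      rw [Finset.mem_filter] at hx
      rw [hχ1 x hx.2.1 j, hω1 (1 - x) (sub_ne_zero.2 (Ne.symm hx.2.2.1)) k, ex_add]
      rfl
    have hsdiff : (univ \ Xg e f) ⊆ ({0, 1, 1 - f, e} : Finset F) := by
      intro x hx
      rw [Finset.mem_sdiff] at hx
      have hx2 := hx.2
      unfold Xg at hx2
      rw [Finset.mem_filter] at hx2
      by_contra hn
      apply hx2
      simp only [Finset.mem_insert, Finset.mem_singleton, not_or] at hn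
      refine ⟨Finset.mem_univ _, hn.1, hn.2.1, hn.2.2.1, hn.2.2.2, ?_⟩
      rw [hef, zero_mul]
      exact Ne.symm he
    have hcard4 : #(univ \ Xg e f) ≤ 4 := by
      refine le_trans (Finset.card_le_card hsdiff) ?_
      exact Finset.card_le_four
    have hcardX : (Fintype.card F : ℝ) - 4 ≤ (#(Xg e f) : ℝ) := by
      have h1 : #(univ \ Xg e f) + #(Xg e f) = Fintype.card F := by
        rw [Finset.card_sdiff_add_card_eq_card (Finset.subset_univ _), Finset.card_univ]
      have h2 : (Fintype.card F : ℝ) = #(univ \ Xg e f) + #(Xg e f) := by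
        exact_mod_cast h1.symm
      have h3 : ((#(univ \ Xg e f) : ℕ) : ℝ) ≤ 4 := by exact_mod_cast hcard4
      linarith
    have hsplit : ∑ x ∈ Xg e f, (χ ^ j) x * (ω ^ k) (1 - x) =
        ∑ x, (χ ^ j) x * (ω ^ k) (1 - x) -
          ∑ x ∈ univ \ Xg e f, (χ ^ j) x * (ω ^ k) (1 - x) := by
      rw [eq_sub_iff_add_eq, add_comm, Finset.sum_sdiff (Finset.subset_univ _)]
    have hrest : ‖∑ x ∈ univ \ Xg e f, (χ ^ j) x * (ω ^ k) (1 - x)‖ ≤ 4 := by
      refine le_trans (norm_sum_le _ _) ?_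
      refine le_trans (Finset.sum_le_card_nsmul _ _ 1 fun x _ => ?_) ?_
      · rw [norm_mul]
        exact mul_le_one₀ (norm_chi_le _ _) (norm_nonneg _) (norm_chi_le _ _)
      · rw [nsmul_eq_mul, mul_one]
        exact_mod_cast hcard4
    have hne : χ ^ j ≠ 1 ∨ ω ^ k ≠ 1 := by
      by_cases hj0 : j = 0
      · right
        refine hω2 k (fun hk0 => hjk ⟨hj0, hk0⟩) ?_
        omega
      · left
        refine hχ2 j hj0 ?_
        omega
    have hmain := jac_sq' (hJ F) (χ ^ j) (ω ^ k) hne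
    have hq0 : (0 : ℝ) ≤ Fintype.card F := Nat.cast_nonneg _
    have hq1 : (1 : ℝ) ≤ √(Fintype.card F) := by
      rw [Real.one_le_sqrt]
      exact_mod_cast (le_trans (by norm_num) hqb : 1 ≤ Fintype.card F)
    have h16 : ‖∑ x, (χ ^ j) x * (ω ^ k) (1 - x)‖ ^ 2 ≤
        16 * Fintype.card F * √(Fintype.card F) := by
      refine le_trans hmain ?_
      nlinarith
    have hlim := hq₁ (Fintype.card F) hqa _ (norm_nonneg _) h16
    rw [hsum, hsplit]
    refine le_trans (norm_sub_le _ _) ?_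
    have h5 : κ * ((Fintype.card F : ℝ) - 5) ≤ κ * #(Xg e f) :=
      mul_le_mul_of_nonneg_left (by linarith) hκ.le
    linarith

/-- **GLI** -/
theorem t_GLI (hI : IND) : GLI := by
  intro F _ _ α hα hq hne
  obtain ⟨hα0, hp1, hind, hpp⟩ := hI F α hα hq
  obtain ⟨m, hm⟩ : ∃ m : ℕ, m = ind α (-1 : F) := ⟨_, rfl⟩
  obtain ⟨h1, h2⟩ := hind (-1 : F) (neg_ne_zero.2 one_ne_zero)
  rw [← hm] at h1 h2
  have hm0 : m ≠ 0 := by
    intro h
    rw [h, pow_zero] at h1
    exact hne h1.symm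
  have h3 : ((Fintype.card F : ℤ) - 1) ∣ (2 * m : ℤ) := by
    rw [← hp1]
    have : α ^ (2 * (m : ℤ)) = (α ^ m) ^ 2 := by
      rw [mul_comm, zpow_mul, zpow_natCast]
      norm_cast
    rw [this, h1]
    ring
  have h4 : (2 * m : ℤ) = (Fintype.card F : ℤ) - 1 := by
    obtain ⟨c, hc⟩ := h3
    have hm1 : (0 : ℤ) < m := by exact_mod_cast Nat.pos_of_ne_zero hm0
    have hq1 : (0 : ℤ) < (Fintype.card F : ℤ) - 1 := by linarith
    have hc1 : 0 < c := by
      by_contra hcn
      have : ((Fintype.card F : ℤ) - 1) * c ≤ 0 :=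
        mul_nonpos_of_nonneg_of_nonpos hq1.le (not_lt.1 hcn)
      linarith
    have hc2 : c < 2 := by
      by_contra hcn
      have : ((Fintype.card F : ℤ) - 1) * 2 ≤ ((Fintype.card F : ℤ) - 1) * c :=
        mul_le_mul_of_nonneg_left (not_lt.1 hcn) hq1.le
      linarith
    have hc3 : c = 1 := by omega
    rw [hc, hc3, mul_one]
  have hqm : (Fintype.card F : ℝ) - 1 = 2 * m := by
    have : ((2 * m : ℤ) : ℝ) = (((Fintype.card F : ℤ) - 1 : ℤ) : ℝ) := by rw [h4]
    push_cast at this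
    exact this.symm
  have hmR : (0 : ℝ) < m := by exact_mod_cast Nat.pos_of_ne_zero hm0
  have h1z : α ^ (m : ℤ) = -1 := by rw [zpow_natCast]; exact h1
  constructor
  · intro x hx
    obtain ⟨hx1, hx2⟩ := hind x hx
    obtain ⟨hy1, hy2⟩ := hind (-x) (neg_ne_zero.2 hx)
    obtain ⟨i, hi⟩ : ∃ i : ℕ, i = ind α x := ⟨_, rfl⟩
    obtain ⟨i', hi'⟩ : ∃ i' : ℕ, i' = ind α (-x) := ⟨_, rfl⟩
    rw [← hi] at hx1 hx2
    rw [← hi'] at hy1 hy2
    have h5 : α ^ (i' : ℤ) = α ^ ((m : ℤ) + i) := by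
      rw [zpow_add₀ hα0, h1z, zpow_natCast, zpow_natCast, hy1, hx1]
      ring
    obtain ⟨c, hc⟩ := (hpp _ _).1 h5
    rw [← h4] at hc hx2 hy2
    have hm1 : (0 : ℤ) < m := by exact_mod_cast Nat.pos_of_ne_zero hm0
    have hi0 : (0 : ℤ) ≤ i := Int.natCast_nonneg i
    have hi'0 : (0 : ℤ) ≤ i' := Int.natCast_nonneg i'
    have hc1 : c < 1 := by
      by_contra hcn
      have : (2 * m : ℤ) * 1 ≤ 2 * m * c :=
        mul_le_mul_of_nonneg_left (not_lt.1 hcn) (by linarith)
      linarith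
    have hc2 : -2 < c := by
      by_contra hcn
      have : (2 * m : ℤ) * c ≤ 2 * m * (-2) :=
        mul_le_mul_of_nonneg_left (not_lt.1 hcn) (by linarith)
      linarith
    have hag : ag α x + ag α (-x) - 1 / 2 = ((i : ℝ) + i' - m) / (2 * m) := by
      unfold ag
      rw [← hi, ← hi', hqm]
      field_simp
    rw [hag]
    have hc3 : c = 0 ∨ c = -1 := by omega
    rcases hc3 with hc3 | hc3
    · rw [hc3, mul_zero] at hc
      have h6 : (i' : ℤ) = m + i := by linarith
      have h7 : (i' : ℝ) = m + i := by exact_mod_cast h6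
      have h8 : (i : ℝ) < m := by
        have : (i : ℤ) < m := by linarith
        exact_mod_cast this
      have h9 : (0 : ℝ) ≤ i := Nat.cast_nonneg i
      constructor
      · apply div_nonneg <;> linarith
      · rw [div_lt_one (by linarith)]
        linarith
    · rw [hc3] at hc
      have h6 : (i' : ℤ) = i - m := by linarith
      have h7 : (i' : ℝ) = i - m := by exact_mod_cast h6
      have h8 : (m : ℝ) ≤ i := by
        have : (m : ℤ) ≤ i := by linarith
        exact_mod_cast this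
      have h9 : (i : ℝ) < 2 * m := by exact_mod_cast hx2
      constructor
      · apply div_nonneg <;> linarith
      · rw [div_lt_one (by linarith)]
        linarith
  · intro u hu hu1 hu2
    have h5 : α ^ u = α ^ (m : ℤ) := by rw [hu, h1z]
    obtain ⟨c, hc⟩ := (hpp _ _).1 h5
    rw [← h4] at hc
    rw [hqm] at hu1 hu2 ⊢
    have hcR : (u : ℝ) = m * (1 + 2 * c) := by
      have h6 : u = m * (1 + 2 * c) := by linarith
      rw [h6]
      push_cast
      ring
    have hc0 : c = 0 := by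
      have h7 : (-1 : ℝ) < c := by
        by_contra hcn
        have : (m : ℝ) * (1 + 2 * c) ≤ m * (1 + 2 * (-1)) :=
          mul_le_mul_of_nonneg_left (by linarith) hmR.le
        linarith
      have h8 : (c : ℝ) < 1 := by
        by_contra hcn
        have : (m : ℝ) * (1 + 2 * 1) ≤ m * (1 + 2 * c) :=
          mul_le_mul_of_nonneg_left (by linarith) hmR.le
        linarith
      have h7' : (-1 : ℤ) < c := by exact_mod_cast h7
      have h8' : c < 1 := by exact_mod_cast h8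
      omega
    rw [hcR, hc0]
    field_simp
    push_cast
    ring

end Pool.Agent.Helper12.CO
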