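import Pool.Agent.Helper74.CO.Goals

/-!
# Project CO (MP_c5396e_co), packet CO-TRI2-TP
-/

set_option autoImplicit false

namespace Pool.Agent.Helper12.CO

open Finset Pool.Agent.Helper74.CO

theorem norm_chi {F : Type} [Field F] [Fintype F] [DecidableEq F] (χ : MulChar F ℂ) (t : F)
    (ht : t ≠ 0) : ‖χ t‖ = 1 := by
  have h1 : (χ t) ^ (Fintype.card F - 1) = 1 := by
    rw [← map_pow, FiniteField.pow_card_sub_one_eq_one t ht, map_one]
  have h2 : Fintype.card F - 1 ≠ 0 := by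
    have := Fintype.one_lt_card (α := F)
    omega
  exact Complex.norm_eq_one_of_pow_eq_one h1 h2

/-- **TRI2** -/
theorem t_TRI2 (F : Type) [Field F] [Fintype F] [DecidableEq F] (hTRI : TRI F) : TRI2 F := by
  intro χ₁ χ₂ χ₃ s t h2 h3 hs ht hst
  have hst' : s / t ≠ 1 := by
    intro h
    exact hst ((div_eq_one_iff_eq ht).1 h)
  have key := hTRI χ₁ χ₂ χ₃ (s / t) h2 h3 (div_ne_zero hs ht) hst'
  have e1 : ∑ x, χ₁ x * (χ₂ (x - s) * χ₃ (x - t)) =
      (χ₁ t * (χ₂ t * χ₃ t)) * ∑ x, χ₁ x * (χ₂ (x - s / t) * χ₃ (x - 1)) := by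
    rw [← Equiv.sum_comp (Equiv.mulLeft₀ t ht), Finset.mul_sum]
    refine Finset.sum_congr rfl fun x _ => ?_
    have e2 : (Equiv.mulLeft₀ t ht) x = t * x := rfl
    have e3 : t * x - s = t * (x - s / t) := by
      rw [mul_sub, mul_div_cancel₀ s ht]
    have e4 : t * x - t = t * (x - 1) := by ring
    rw [e2, e3, e4, map_mul, map_mul, map_mul]
    ring
  rw [e1, norm_mul, norm_mul, norm_mul, norm_chi χ₁ t ht, norm_chi χ₂ t ht, norm_chi χ₃ t ht,
    one_mul, one_mul, one_mul]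
  exact key

/-- **TP** -/
theorem t_TP (F : Type) [Field F] [Fintype F] [DecidableEq F] (hT : TRI2 F) (hJ : JAC F) :
    TP F := by
  intro χ₁ χ₂ s t h2 hst
  have h2' : χ₂⁻¹ ≠ 1 := inv_ne_one.2 h2
  have hq : (4 : ℝ) * Fintype.card F ≤ 7 * Fintype.card F * √(Fintype.card F) := by
    have h3 : (1 : ℝ) ≤ Fintype.card F := by
      exact_mod_cast (Fintype.card_pos (α := F))
    have h4 : (1 : ℝ) ≤ √(Fintype.card F) := by
      rw [Real.one_le_sqrt]; exact h3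
    nlinarith
  by_cases hs : s = 0
  · have ht : t ≠ 0 := fun h => hst (by rw [hs, h])
    refine le_trans ?_ hq
    have h5 := hJ (χ₁ * χ₂) χ₂⁻¹ t h2' ht
    have e : ∑ x, χ₁ x * (χ₂ (x - s) * χ₂⁻¹ (x - t)) = ∑ x, (χ₁ * χ₂) x * χ₂⁻¹ (x - t) := by
      refine Finset.sum_congr rfl fun x _ => ?_
      rw [hs, sub_zero, MulChar.mul_apply]
      ring
    rw [e]
    exact h5
  · by_cases ht : t = 0
    · refine le_trans ?_ hq
      have h5 := hJ (χ₁ * χ₂⁻¹) χ₂ s h2 hs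
      have e : ∑ x, χ₁ x * (χ₂ (x - s) * χ₂⁻¹ (x - t)) = ∑ x, (χ₁ * χ₂⁻¹) x * χ₂ (x - s) := by
        refine Finset.sum_congr rfl fun x _ => ?_
        rw [ht, sub_zero, MulChar.mul_apply]
        ring
      rw [e]
      exact h5
    · exact hT χ₁ χ₂ χ₂⁻¹ s t h2 h2' hs ht hst

end Pool.Agent.Helper12.CO
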